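import Mathlib
import Pool.Agent.Q276.HL.Stm2

/-!
# Job TBD (project HL of helper276)
-/

set_option autoImplicit false

namespace Pool.Agent.Q40.HLTBD

open Pool.Agent.Q276.HL

private lemma le_of_pow4 {T s : ℝ} (hs : 0 ≤ s) (h : T ^ 4 ≤ (10 * s) ^ 4) (hT : 0 ≤ T) :
    T ≤ 10 * s :=
  (pow_le_pow_iff_left₀ hT (by positivity) (by norm_num)).1 h

private lemma core1 {T V s : ℝ} (hs : 1 ≤ s) (hT : 0 < T) (hV : s ^ 2 ≤ V)
    (h : T ^ 2 ≤ 3000 * s ^ 3) : T ≤ 55 * V := by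
  have h1 : (0 : ℝ) < s := by linarith
  have h2 : T ^ 2 ≤ (55 * s ^ 2) ^ 2 := by
    have : s ^ 3 ≤ s ^ 4 := pow_le_pow_right₀ hs (by norm_num)
    nlinarith
  have h3 : T ≤ 55 * s ^ 2 :=
    (pow_le_pow_iff_left₀ hT.le (by positivity) (by norm_num)).1 h2
  linarith

theorem tbd : StmtTBD := by
  refine ⟨10 ^ 18, by norm_num, ?_⟩
  intro R T V hR hT hV a b c d e p q hG hch hab
  have hR1 : (1 : ℝ) ≤ R := le_trans (by norm_num) hR
  have hR0 : (0 : ℝ) ≤ R := by linarith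
  have hT0 : 0 < T := by linarith
  obtain ⟨s, hs⟩ : ∃ s, s = R ^ ((1 : ℝ) / 3) := ⟨_, rfl⟩
  have hs3 : s ^ 3 = R := by
    rw [hs, ← Real.rpow_natCast, ← Real.rpow_mul hR0]
    norm_num
  have hs2 : R ^ ((2 : ℝ) / 3) = s ^ 2 := by
    rw [hs, ← Real.rpow_natCast, ← Real.rpow_mul hR0]
    norm_num
  have hs1 : 1 ≤ s := by
    rw [hs]
    exact Real.one_le_rpow hR1 (by norm_num)
  have hs0 : 0 < s := by linarith
  rw [← hs]
  rw [hs2] at hV
  by_cases ha : a = 0
  · have hb : b ≠ 0 := by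
      rcases hab with h | h
      · exact absurd ha h
      · exact h
    have hb1 : (1 : ℝ) ≤ |(b : ℝ)| := by exact_mod_cast Int.one_le_abs hb
    have hT2 : T ^ 2 ≤ 3000 * s ^ 3 := by
      rw [hs3]
      have := hG.hb
      nlinarith [mul_le_mul_of_nonneg_right hb1 (sq_nonneg T)]
    have hV0 : 0 < V := lt_of_lt_of_le (by positivity) hV
    have hTV := core1 hs1 hT0 hV hT2
    have heq := hG.heq
    unfold qv at heq
    rw [ha] at heq
    have hq : IsUnit q := isUnit_iff_dvd_one.2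
      ⟨4 * b * p ^ 3 + 6 * c * p ^ 2 * q + 4 * d * p * q ^ 2 + e * q ^ 3, by
        linear_combination -heq⟩
    have hqa : |q| = 1 := Int.isUnit_iff_abs_eq.1 hq
    have hqr : |(q : ℝ)| = 1 := by exact_mod_cast hqa
    rcases hch with h | h
    · -- chart 2
      have h1 := h.1
      rw [hqr, one_mul] at h1
      -- `s ^ 2 ≤ 3000 T`
      have h2 : s ^ 2 ≤ 3000 * (3000 * T) := by linarith
      have h3 : s * (s ^ 3) ≤ (9 * 10 ^ 6 * 3000 * 10 ^ 7) * s ^ 3 := by
        have : (s ^ 2) ^ 2 ≤ (3000 * (3000 * T)) ^ 2 := pow_le_pow_left₀ (by positivity) h2 2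
        nlinarith
      have h4 : s ≤ 9 * 10 ^ 6 * 3000 * 10 ^ 7 := le_of_mul_le_mul_right h3 (by positivity)
      have h5 : T ^ 2 ≤ (10 ^ 18 * s) ^ 2 := by nlinarith
      exact (pow_le_pow_iff_left₀ hT0.le (by positivity) (by norm_num)).1 h5
    · -- chart 1
      have h1 := h.1
      obtain ⟨P, hP⟩ : ∃ P, P = |(p : ℝ)| := ⟨_, rfl⟩
      rw [← hP] at h1
      have hP0 : 0 < P := by
        have : 0 < T * V := by positivity
        linarith
      have hp1 : 1 ≤ P := by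
        have : p ≠ 0 := by
          intro h0
          rw [hP, h0] at hP0
          simp at hP0
        rw [hP]
        exact_mod_cast Int.one_le_abs this
      have hTP : T ^ 2 ≤ 165000 * P := by nlinarith
      have hTP4 : T ^ 4 ≤ 165000 ^ 2 * P ^ 2 := by
        have : (T ^ 2) ^ 2 ≤ (165000 * P) ^ 2 := pow_le_pow_left₀ (by positivity) hTP 2
        nlinarith
      have hmain : 4 * P ^ 3 ≤ 1 + 6 * (3000 * R) * P ^ 2 + 4 * (3000 * (R * T ^ 2)) * P +
          3000 * (R * T ^ 4) := by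
        have hr : (4 * b * p ^ 3 : ℝ) * q = 1 - 6 * c * p ^ 2 * q ^ 2 - 4 * d * p * q ^ 3 -
            e * q ^ 4 := by
          have : ((0 * p ^ 4 + 4 * b * p ^ 3 * q + 6 * c * p ^ 2 * q ^ 2 + 4 * d * p * q ^ 3 +
            e * q ^ 4 : ℤ) : ℝ) = 1 := by rw [heq]; norm_num
          push_cast at this
          linarith
        have hl : |(4 * b * p ^ 3 : ℝ) * q| = 4 * |(b : ℝ)| * P ^ 3 := by
          rw [abs_mul, hqr, mul_one, abs_mul, abs_mul, abs_pow, hP]
          norm_num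
        have h6 : |(6 * c * p ^ 2 * q ^ 2 : ℝ)| = 6 * |(c : ℝ)| * P ^ 2 := by
          rw [abs_mul, abs_mul, abs_mul, abs_pow, abs_pow, hqr, hP]
          norm_num
        have h7 : |(4 * d * p * q ^ 3 : ℝ)| = 4 * |(d : ℝ)| * P := by
          rw [abs_mul, abs_mul, abs_mul, abs_pow, hqr, hP]
          norm_num
        have h8 : |(e * q ^ 4 : ℝ)| = |(e : ℝ)| := by
          rw [abs_mul, abs_pow, hqr]
          norm_num
        have h9 : |(4 * b * p ^ 3 : ℝ) * q| ≤ 1 + |(6 * c * p ^ 2 * q ^ 2 : ℝ)| +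
            |(4 * d * p * q ^ 3 : ℝ)| + |(e * q ^ 4 : ℝ)| := by
          rw [hr]
          have e1 := abs_sub (1 - 6 * c * p ^ 2 * q ^ 2 - 4 * d * p * q ^ 3 : ℝ) (e * q ^ 4)
          have e2 := abs_sub (1 - 6 * c * p ^ 2 * q ^ 2 : ℝ) (4 * d * p * q ^ 3)
          have e3 := abs_sub (1 : ℝ) (6 * c * p ^ 2 * q ^ 2)
          rw [abs_one] at e3
          linarith
        rw [hl, h6, h7, h8] at h9
        have i1 : P ^ 3 ≤ |(b : ℝ)| * P ^ 3 := le_mul_of_one_le_left (by positivity) hb1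
        have i2 : |(c : ℝ)| * P ^ 2 ≤ 3000 * R * P ^ 2 :=
          mul_le_mul_of_nonneg_right hG.hc (by positivity)
        have i3 : |(d : ℝ)| * P ≤ 3000 * (R * T ^ 2) * P :=
          mul_le_mul_of_nonneg_right hG.hd hP0.le
        have i4 := hG.he
        nlinarith
      have hP3 : P ≤ 10 ^ 14 * R := by
        have j1 : R * T ^ 2 * P ≤ 165000 * (R * P ^ 2) := by
          have : R * P * T ^ 2 ≤ R * P * (165000 * P) :=
            mul_le_mul_of_nonneg_left hTP (by positivity)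
          nlinarith
        have j2 : R * T ^ 4 ≤ 165000 ^ 2 * (R * P ^ 2) := by
          have : R * T ^ 4 ≤ R * (165000 ^ 2 * P ^ 2) := mul_le_mul_of_nonneg_left hTP4 hR0
          nlinarith
        have j3 : 1 ≤ R * P ^ 2 := by
          have : 1 ≤ P ^ 2 := one_le_pow₀ hp1
          nlinarith
        have j4 : P * P ^ 2 ≤ (10 ^ 14 * R) * P ^ 2 := by nlinarith
        exact le_of_mul_le_mul_right j4 (by positivity)
      have k1 : T * s ^ 2 ≤ (10 ^ 18 * s) * s ^ 2 := by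
        have : T * s ^ 2 ≤ T * V := mul_le_mul_of_nonneg_left hV hT0.le
        have : (10 ^ 18 * s) * s ^ 2 = 10 ^ 18 * R := by rw [← hs3]; ring
        nlinarith
      exact le_of_mul_le_mul_right k1 (by positivity)
  · have ha1 : (1 : ℝ) ≤ |(a : ℝ)| := by exact_mod_cast Int.one_le_abs ha
    have h1 : T ^ 4 ≤ 3000 * R := by
      have := hG.ha
      have : T ^ 4 ≤ |(a : ℝ)| * T ^ 4 := le_mul_of_one_le_left (by positivity) ha1
      linarith
    have h2 : T ^ 4 ≤ (10 * s) ^ 4 := by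
      rw [← hs3] at h1
      have : s ^ 3 ≤ s ^ 4 := pow_le_pow_right₀ hs1 (by norm_num)
      nlinarith
    have h3 := le_of_pow4 hs0.le h2 hT0.le
    nlinarith

end Pool.Agent.Q40.HLTBD
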